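import Mathlib
import Pool.Agent.helper35.DR.SpecK

/-!
# Project dr (MP_baa4d7_al): KNC. At most one invariant projective character if `N` is not central.
-/

set_option autoImplicit false

namespace Pool.Agent.DR

open Pool.Agent.helper58.DC Pool.Agent.DI

section KNC

variable {A : Type} [Group A]

/-- The radical of the commutator form of a cocycle. -/
def KNC_R (N : Subgroup A) (hc : ∀ x ∈ N, ∀ y ∈ N, x * y = y * x) (β : A → A → ℂˣ)
    (hβ : β ∈ Coc A) : Subgroup A where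
  carrier := {x | x ∈ N ∧ ∀ y ∈ N, β x y = β y x}
  mul_mem' := by
    rintro x x' ⟨hx, h⟩ ⟨hx', h'⟩
    refine ⟨N.mul_mem hx hx', fun y hy => ?_⟩
    have e1 := hβ.1 x x' y
    have e2 := hβ.1 y x x'
    have e3 := hβ.1 x y x'
    rw [hc y hy x hx] at e2
    rw [hc y hy x' hx'] at e3
    rw [h y hy] at e3
    rw [← h' y hy] at e3
    rw [← e1] at e3
    rw [e3, mul_comm (β y (x * x'))] at e2
    exact mul_left_cancel e2
  one_mem' := ⟨N.one_mem, fun y _ => by rw [hβ.2.1, hβ.2.2]⟩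
  inv_mem' := by
    rintro x ⟨hx, h⟩
    refine ⟨N.inv_mem hx, fun y hy => ?_⟩
    have e1 := hβ.1 x x⁻¹ y
    have e2 := hβ.1 y x x⁻¹
    have e3 := hβ.1 x y x⁻¹
    rw [mul_inv_cancel, hβ.2.1, mul_one] at e1
    rw [mul_inv_cancel, hβ.2.2, one_mul, hc y hy x hx] at e2
    rw [h y hy, e2, e1, hc y hy x⁻¹ (N.inv_mem hx)] at e3
    exact mul_left_cancel e3

theorem KNC_normal (hTW : KTW_stmt) (N : Subgroup A) (hN : N.Normal)
    (hc : ∀ x ∈ N, ∀ y ∈ N, x * y = y * x) (β : A → A → ℂˣ) (hβ : β ∈ Coc A) :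
    (KNC_R N hc β hβ).Normal := by
  constructor
  rintro n ⟨hn, h⟩ q
  refine ⟨hN.conj_mem n hn q, fun y hy => ?_⟩
  have hx : q⁻¹ * y * q ∈ N := by
    have := hN.conj_mem y hy q⁻¹
    rwa [inv_inv] at this
  have hy' : q * (q⁻¹ * y * q) * q⁻¹ = y := by group
  have e1 := hTW A β hβ q n (q⁻¹ * y * q)
  have e2 := hTW A β hβ q (q⁻¹ * y * q) n
  rw [hy'] at e1 e2
  rw [h _ hx, e2, hc _ hx n hn, mul_comm (tw β q (q⁻¹ * y * q)) (tw β q n)] at e1
  exact (mul_left_cancel e1).symm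

theorem KNC_one (N : Subgroup A) (β : A → A → ℂˣ) (σ : A → ℂ) (k : ℕ) (h : PIrr N β σ k) :
    σ 1 = k := by
  obtain ⟨V, _, _, _, S, h1, h2, h3, h4⟩ := h.rep
  rw [h4 1 N.one_mem, h1, LinearMap.trace_one, h3]

theorem KNC_zero (N : Subgroup A) (β : A → A → ℂˣ) (hβ : β ∈ Coc A) (σ : A → ℂ) (k : ℕ)
    (h : PIrr N β σ k) (x y : A) (hx : x ∈ N) (hy : y ∈ N) (hxy : x * y = y * x)
    (hne : β x y ≠ β y x) : σ x = 0 := by
  obtain ⟨V, _, _, _, S, h1, h2, h3, h4⟩ := h.rep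
  rw [h4 x hx]
  have hyi := N.inv_mem hy
  have e1 : S y * S y⁻¹ = ((β y y⁻¹ : ℂˣ) : ℂ) • (1 : Module.End ℂ V) := by
    rw [h2 y hy _ hyi, mul_inv_cancel, h1]
  have e2 : S y⁻¹ * S y = ((β y⁻¹ y : ℂˣ) : ℂ) • (1 : Module.End ℂ V) := by
    rw [h2 _ hyi y hy, inv_mul_cancel, h1]
  have e3 : β y y⁻¹ = β y⁻¹ y := by
    have := hβ.1 y y⁻¹ y
    rwa [mul_inv_cancel, inv_mul_cancel, hβ.2.1, hβ.2.2, mul_one, one_mul] at this
  have e4 : ((β x y : ℂˣ) : ℂ) • (S y * S x) = ((β y x : ℂˣ) : ℂ) • (S x * S y) := by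
    rw [h2 y hy x hx, h2 x hx y hy, hxy, smul_smul, smul_smul, mul_comm]
  have e5 : LinearMap.trace ℂ V (S y * S x * S y⁻¹) =
      ((β y⁻¹ y : ℂˣ) : ℂ) * LinearMap.trace ℂ V (S x) := by
    rw [LinearMap.trace_mul_comm, ← mul_assoc, e2, smul_mul_assoc, one_mul, map_smul, smul_eq_mul]
  have e6 : LinearMap.trace ℂ V (S x * S y * S y⁻¹) =
      ((β y⁻¹ y : ℂˣ) : ℂ) * LinearMap.trace ℂ V (S x) := by
    rw [mul_assoc, e1, e3, mul_smul_comm, mul_one, map_smul, smul_eq_mul]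
  have e7 : ((β x y : ℂˣ) : ℂ) * (((β y⁻¹ y : ℂˣ) : ℂ) * LinearMap.trace ℂ V (S x)) =
      ((β y x : ℂˣ) : ℂ) * (((β y⁻¹ y : ℂˣ) : ℂ) * LinearMap.trace ℂ V (S x)) := by
    rw [← e5, ← smul_eq_mul, ← map_smul, ← smul_mul_assoc, e4, smul_mul_assoc, map_smul, e6,
      smul_eq_mul, e5]
  by_contra h0
  have e8 : ((β y⁻¹ y : ℂˣ) : ℂ) * LinearMap.trace ℂ V (S x) ≠ 0 :=
    mul_ne_zero (Units.ne_zero _) h0
  exact hne (Units.ext (mul_right_cancel₀ e8 e7))

theorem KNC_case1 (N : Subgroup A) (β : A → A → ℂˣ) (hβ : β ∈ Coc A) (σ : A → ℂ) (k : ℕ)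
    (h : PIrr N β σ k) (hz : ∀ x ∈ N, x ≠ 1 → σ x = 0) : k ^ 2 = Nat.card N := by
  classical
  have h1 := h.norm
  have h2 : ∑ᶠ n ∈ (N : Set A), σ n * σ n⁻¹ * ((β n n⁻¹ : ℂˣ) : ℂ)⁻¹ = (k : ℂ) ^ 2 := by
    rw [finsum_eq_single _ (1 : A)]
    · have : (1 : A) ∈ (N : Set A) := N.one_mem
      rw [finsum_eq_if, if_pos this, inv_one, hβ.2.1, KNC_one N β σ k h]
      simp
      ring
    · intro x hx
      rw [finsum_eq_if]
      split_ifs with hxN
      · rw [hz x hxN hx]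
        simp
      · rfl
  rw [h2] at h1
  exact_mod_cast h1

end KNC

theorem KNC (hTW : KTW_stmt) (hCM : KCM_stmt) : KNC_stmt := by
  intro A _ _ N hN hnc β hβ σ σ' k k' h1 hi1 h2 hi2
  have hR := KNC_normal hTW N hN.nor hN.comm β hβ
  rcases hN.min _ hR (fun x hx => hx.1) with hb | ht
  · -- the form is nondegenerate
    have hne : ∀ x ∈ N, x ≠ 1 → ∃ y ∈ N, β x y ≠ β y x := by
      intro x hx hx1
      by_contra hcon
      push Not at hcon
      have : x ∈ KNC_R N hN.comm β hβ := ⟨hx, hcon⟩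
      rw [hb, Subgroup.mem_bot] at this
      exact hx1 this
    have hz1 : ∀ x ∈ N, x ≠ 1 → σ x = 0 := by
      intro x hx hx1
      obtain ⟨y, hy, hxy⟩ := hne x hx hx1
      exact KNC_zero N β hβ σ k h1 x y hx hy (hN.comm x hx y hy) hxy
    have hz2 : ∀ x ∈ N, x ≠ 1 → σ' x = 0 := by
      intro x hx hx1
      obtain ⟨y, hy, hxy⟩ := hne x hx hx1
      exact KNC_zero N β hβ σ' k' h2 x y hx hy (hN.comm x hx y hy) hxy
    have hk : k = k' := by
      have e1 := KNC_case1 N β hβ σ k h1 hz1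
      have e2 := KNC_case1 N β hβ σ' k' h2 hz2
      rw [← e2] at e1
      exact Nat.pow_left_injective (by norm_num : (2 : ℕ) ≠ 0) e1
    funext x
    by_cases hx : x ∈ N
    · by_cases hx1 : x = 1
      · rw [hx1, KNC_one N β σ k h1, KNC_one N β σ' k' h2, hk]
      · rw [hz1 x hx hx1, hz2 x hx hx1]
    · rw [h1.off x hx, h2.off x hx]
  · -- the form is zero
    have hco : ∀ x ∈ N, ∀ y ∈ N, β x y = β y x ∧ x * y = y * x := by
      intro x hx y hy
      have : x ∈ KNC_R N hN.comm β hβ := by rw [ht]; exact hx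
      exact ⟨this.2 y hy, hN.comm x hx y hy⟩
    obtain ⟨-, b, hb1, hb2⟩ := hCM A N β hβ hco σ k h1
    obtain ⟨-, b', hb1', hb2'⟩ := hCM A N β hβ hco σ' k' h2
    have hm : ∀ n ∈ N, ∀ n' ∈ N, (b' n * (b n)⁻¹) * (b' n' * (b n')⁻¹) = b' (n * n') * (b (n * n'))⁻¹ := by
      intro n hn n' hn'
      have e1 := hb2 n hn n' hn'
      have e2 := hb2' n hn n' hn'
      rw [mul_mul_mul_comm, ← mul_inv, e1, e2, mul_inv, mul_mul_mul_comm, mul_inv_cancel, one_mul]
    have hinv : ∀ q, ∀ n ∈ N, b' (q * n * q⁻¹) * (b (q * n * q⁻¹))⁻¹ = b' n * (b n)⁻¹ := by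
      intro q n hn
      have hn' := hN.nor.conj_mem n hn q
      have e1 : b n = tw β q n * b (q * n * q⁻¹) := by
        have := hi1 q n hn
        rw [hb1 n hn, hb1 _ hn'] at this
        exact Units.ext (by rw [this, Units.val_mul])
      have e2 : b' n = tw β q n * b' (q * n * q⁻¹) := by
        have := hi2 q n hn
        rw [hb1' n hn, hb1' _ hn'] at this
        exact Units.ext (by rw [this, Units.val_mul])
      rw [e1, e2, mul_inv, mul_mul_mul_comm, mul_inv_cancel, one_mul]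
    have hone : b' 1 * (b 1)⁻¹ = 1 := by
      have := hm 1 N.one_mem 1 N.one_mem
      rw [mul_one] at this
      exact mul_eq_left.mp this
    set K : Subgroup A :=
      { carrier := {x | x ∈ N ∧ b' x * (b x)⁻¹ = 1}
        mul_mem' := by
          rintro x y ⟨hx, h⟩ ⟨hy, h'⟩
          exact ⟨N.mul_mem hx hy, by rw [← hm x hx y hy, h, h', one_mul]⟩
        one_mem' := ⟨N.one_mem, hone⟩
        inv_mem' := by
          rintro x ⟨hx, h⟩
          refine ⟨N.inv_mem hx, ?_⟩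
          have := hm x hx x⁻¹ (N.inv_mem hx)
          rw [mul_inv_cancel, hone, h, one_mul] at this
          exact this } with hK
    have hKn : K.Normal := by
      constructor
      rintro n ⟨hn, h⟩ q
      exact ⟨hN.nor.conj_mem n hn q, by rw [hinv q n hn]; exact h⟩
    rcases hN.min K hKn (fun x hx => hx.1) with hK1 | hK1
    · exfalso
      obtain ⟨a, x, hx, hax⟩ := hnc
      apply hax
      have hx' := hN.nor.conj_mem x hx a
      have hmem : a * x * a⁻¹ * x⁻¹ ∈ K := by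
        refine ⟨N.mul_mem hx' (N.inv_mem hx), ?_⟩
        rw [← hm _ hx' _ (N.inv_mem hx), hinv a x hx, hm x hx _ (N.inv_mem hx), mul_inv_cancel, hone]
      rw [hK1, Subgroup.mem_bot] at hmem
      have e1 : a * x * a⁻¹ = x := by
        rw [mul_inv_eq_one] at hmem
        exact hmem
      rw [mul_inv_eq_iff_eq_mul] at e1
      exact e1
    · funext x
      by_cases hx : x ∈ N
      · have : x ∈ K := by rw [hK1]; exact hx
        have e1 := this.2
        rw [mul_inv_eq_one] at e1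
        rw [hb1 x hx, hb1' x hx, e1]
      · rw [h1.off x hx, h2.off x hx]

end Pool.Agent.DR
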